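import Pool.Agent.W684.BR.Stm

set_option autoImplicit false

/-!
# MP_e29ee7_lc (S15510): the rigid family of sets of reals

A transfinite recursion of length continuum (Dushnik-Miller / Sierpinski type) gives pairwise
disjoint sets of reals no one of which is a countable union of pieces each embedding in the union of
the others.
-/

namespace Pool.Agent.W308.BR

open Pool.Agent.W684.BR Cardinal Set

def MF : Type := {f : ℝ → ℝ // Measurable f}

theorem mk_meas : #{s : Set ℝ // MeasurableSet s} ≤ 𝔠 := by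
  obtain ⟨b, hb, hm⟩ := (inferInstance : MeasurableSpace.CountablyGenerated ℝ).isCountablyGenerated
  have h1 : #b ≤ 𝔠 := (Cardinal.le_aleph0_iff_set_countable.2 hb).trans aleph0_le_continuum
  have h2 := MeasurableSpace.cardinal_measurableSet_le_continuum h1
  rw [← hm] at h2
  exact h2

theorem mk_MF : #MF ≤ 𝔠 := by
  have h2 : Function.Injective (fun (f : MF) (q : ℚ) =>
      (⟨f.1 ⁻¹' Iio (q:ℝ), f.2 measurableSet_Iio⟩ : {s : Set ℝ // MeasurableSet s})) := by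
    intro f g hfg
    apply Subtype.ext
    funext x
    by_contra hne
    rcases lt_or_gt_of_ne hne with h | h
    · obtain ⟨q, hq1, hq2⟩ := exists_rat_btwn h
      have h4 := congrArg Subtype.val (congrFun hfg q)
      have h3 : x ∈ f.1 ⁻¹' Iio (q:ℝ) := hq1
      have h5 : x ∈ g.1 ⁻¹' Iio (q:ℝ) := by
        have h6 : f.1 ⁻¹' Iio (q:ℝ) = g.1 ⁻¹' Iio (q:ℝ) := h4
        rw [← h6]; exact h3
      exact absurd h5 (not_lt.2 hq2.le)
    · obtain ⟨q, hq1, hq2⟩ := exists_rat_btwn h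
      have h4 := congrArg Subtype.val (congrFun hfg q)
      have h3 : x ∈ g.1 ⁻¹' Iio (q:ℝ) := hq1
      have h5 : x ∈ f.1 ⁻¹' Iio (q:ℝ) := by
        have h6 : f.1 ⁻¹' Iio (q:ℝ) = g.1 ⁻¹' Iio (q:ℝ) := h4
        rw [h6]; exact h3
      exact absurd h5 (not_lt.2 hq2.le)
  calc #MF ≤ #(ℚ → {s : Set ℝ // MeasurableSet s}) := mk_le_of_injective h2
    _ = #{s : Set ℝ // MeasurableSet s} ^ #ℚ := by rw [← power_def]
    _ ≤ 𝔠 ^ #ℚ := power_le_power_right mk_meas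
    _ = 𝔠 := by rw [mk_eq_aleph0 ℚ]; exact continuum_power_aleph0

theorem mk_task : #(ℕ → MF) ≤ 𝔠 := by
  calc #(ℕ → MF) = #MF ^ #ℕ := by rw [← power_def]
    _ ≤ 𝔠 ^ #ℕ := power_le_power_right mk_MF
    _ = 𝔠 := by rw [mk_eq_aleph0 ℕ]; exact continuum_power_aleph0

abbrev ι : Type := (Cardinal.ord 𝔠).ToType

theorem mk_ι : #ι = 𝔠 := mk_ord_toType 𝔠

theorem mk_Iio (α : ι) : #(Iio α) < 𝔠 := by
  simpa using mk_Iio_lt α

theorem mk_Iic (α : ι) : #(Iic α) < 𝔠 := by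
  have h : (Iic α) = insert α (Iio α) := by
    ext x; simp [le_iff_eq_or_lt]
  rw [h]
  refine lt_of_le_of_lt mk_insert_le ?_
  exact add_lt_of_lt aleph0_le_continuum (mk_Iio α) (lt_trans one_lt_aleph0 aleph0_lt_continuum)

/-- good value at stage `α` -/
theorem exists_good (τ : ι → ℕ → MF) (α : ι) (s : (β : ι) → β < α → ℝ) :
    ∃ y : ℝ, y ∈ Icc (0:ℝ) 1 ∧ (∀ β (h : β < α), y ≠ s β h) ∧
      ∀ β (h : β < α) (γ : ι), γ ≤ α → ∀ i : ℕ, y ≠ (τ γ i).1 (s β h) := by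
  by_contra hcon
  push Not at hcon
  let F : (Iio α) ⊕ ((Iio α) × ((Iic α) × ℕ)) → ℝ := fun z =>
    match z with
    | Sum.inl b => s b.1 b.2
    | Sum.inr ⟨b, g, i⟩ => (τ g.1 i).1 (s b.1 b.2)
  have h1 : Icc (0:ℝ) 1 ⊆ range F := by
    intro y hy
    by_cases h2 : ∀ β (h : β < α), y ≠ s β h
    · obtain ⟨β, h, γ, hγ, i, hi⟩ := hcon y hy h2
      exact ⟨Sum.inr ⟨⟨β, h⟩, ⟨γ, hγ⟩, i⟩, hi.symm⟩
    · push Not at h2
      obtain ⟨β, h, hb⟩ := h2
      exact ⟨Sum.inl ⟨β, h⟩, hb.symm⟩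
  have h2 : #(Icc (0:ℝ) 1) ≤ #(range F) := mk_le_mk_of_subset h1
  have h3 : #(range F) ≤ #((Iio α) ⊕ ((Iio α) × ((Iic α) × ℕ))) := mk_range_le
  have h4 : #((Iio α) ⊕ ((Iio α) × ((Iic α) × ℕ))) < 𝔠 := by
    rw [mk_sum, mk_prod, mk_prod]
    simp only [lift_id, mk_eq_aleph0]
    exact add_lt_of_lt aleph0_le_continuum (mk_Iio α)
      (mul_lt_of_lt aleph0_le_continuum (mk_Iio α)
        (mul_lt_of_lt aleph0_le_continuum (mk_Iic α) aleph0_lt_continuum))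
  rw [mk_Icc_real zero_lt_one] at h2
  exact absurd (lt_of_le_of_lt (h2.trans h3) h4) (lt_irrefl _)

theorem exists_r (τ : ι → ℕ → MF) : ∃ r : ι → ℝ, ∀ α, r α ∈ Icc (0:ℝ) 1 ∧
    (∀ β, β < α → r α ≠ r β) ∧
      ∀ β, β < α → ∀ γ : ι, γ ≤ α → ∀ i : ℕ, r α ≠ (τ γ i).1 (r β) := by
  classical
  obtain ⟨R, hR⟩ : ∃ R : (α : ι) → ((β : ι) → β < α → ℝ) → ℝ, ∀ α s, R α s ∈ Icc (0:ℝ) 1 ∧
      (∀ β (h : β < α), R α s ≠ s β h) ∧
      ∀ β (h : β < α) (γ : ι), γ ≤ α → ∀ i : ℕ, R α s ≠ (τ γ i).1 (s β h) :=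
    ⟨fun α s => (exists_good τ α s).choose, fun α s => (exists_good τ α s).choose_spec⟩
  have wf : WellFounded (fun a b : ι => a < b) := wellFounded_lt
  obtain ⟨r, hr⟩ : ∃ r : ι → ℝ, ∀ α, r α = R α (fun β _ => r β) :=
    ⟨fun α => wf.fix R α, fun α => wf.fix_eq R α⟩
  refine ⟨r, fun α => ?_⟩
  have h := hR α (fun β _ => r β)
  rw [← hr α] at h
  exact h

theorem exists_col : ∃ col : ι → ℕ × ℕ, ∀ c, #{α : ι | col α = c} = 𝔠 := by
  have h1 : #ι = #(ι × (ℕ × ℕ)) := by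
    rw [mk_prod, mk_prod]
    simp only [lift_id, mk_eq_aleph0, mk_ι, aleph0_mul_aleph0]
    exact continuum_mul_aleph0.symm
  obtain ⟨e⟩ := Cardinal.eq.1 h1
  refine ⟨fun α => (e α).2, fun c => ?_⟩
  rw [← mk_ι]
  apply le_antisymm (mk_set_le _)
  refine mk_le_of_injective (f := fun α : ι => (⟨e.symm (α, c), by simp⟩ :
    {α : ι | (e α).2 = c})) ?_
  intro a b hab
  have h2 := congrArg Subtype.val hab
  have h3 := e.symm.injective h2
  exact (Prod.ext_iff.1 h3).1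

theorem exists_task : ∃ τ : ι → ℕ → MF, Function.Surjective τ := by
  have h : #(ℕ → MF) ≤ #ι := by rw [mk_ι]; exact mk_task
  have : Nonempty (ℕ → MF) := ⟨fun _ => ⟨fun x => x, measurable_id⟩⟩
  obtain ⟨f⟩ := h
  exact ⟨Function.invFun f, Function.invFun_surjective f.injective⟩

/-- a strictly monotone function with values in `[0,1]` extends to a measurable one -/
theorem ext_of_strict (h : ℝ → ℝ) (S : Set ℝ) (hm : StrictMonoOn h S)
    (hb : ∀ x ∈ S, h x ∈ Icc (0:ℝ) 1) : ∃ g : MF, ∀ x ∈ S, g.1 x = h x := by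
  obtain ⟨g, hg, he⟩ := MonotoneOn.exists_monotone_extension hm.monotoneOn
    (⟨0, by rintro _ ⟨x, hx, rfl⟩; exact (hb x hx).1⟩)
    (⟨1, by rintro _ ⟨x, hx, rfl⟩; exact (hb x hx).2⟩)
  exact ⟨⟨g, hg.measurable⟩, fun x hx => (he hx).symm⟩

theorem fam : S_FAM := by
  classical
  obtain ⟨τ, hτ⟩ := exists_task
  obtain ⟨col, hcol⟩ := exists_col
  obtain ⟨r, hr⟩ := exists_r τ
  refine ⟨fun k m => {x | ∃ α, col α = (k, m) ∧ r α = x}, ?_⟩
  intro k m A hA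
  by_contra hcon
  push Not at hcon
  choose h hh using hcon
  set X : Set ℝ := {x | ∃ α, col α = (k, m) ∧ r α = x} with hX
  have hX01 : ∀ x ∈ X, x ∈ Icc (0:ℝ) 1 := by
    rintro x ⟨α, -, rfl⟩; exact (hr α).1
  have key : ∀ i, ∀ x ∈ A i ∩ X, ∃ β, col β ≠ (k, m) ∧ r β = h i x := by
    intro i x hx
    obtain ⟨k', m', hne, β, hβ, hb⟩ := (hh i).2 x hx
    exact ⟨β, by rw [hβ]; exact hne, hb⟩
  have hg : ∀ i, ∃ g : MF, ∀ x ∈ A i ∩ X, g.1 x = h i x := by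
    intro i
    apply ext_of_strict (h i) _ (hh i).1
    intro x hx
    obtain ⟨β, -, hb⟩ := key i x hx
    rw [← hb]; exact (hr β).1
  have hg' : ∀ i, ∃ g : MF, ∀ x ∈ A i ∩ X, g.1 (h i x) = x := by
    intro i
    have hinj : InjOn (h i) (A i ∩ X) := (hh i).1.injOn
    have hinv : ∀ x ∈ A i ∩ X, Function.invFunOn (h i) (A i ∩ X) (h i x) = x := by
      intro x hx
      exact hinj.leftInvOn_invFunOn hx
    obtain ⟨g, hg⟩ := ext_of_strict (Function.invFunOn (h i) (A i ∩ X)) (h i '' (A i ∩ X)) (by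
      rintro _ ⟨x, hx, rfl⟩ _ ⟨y, hy, rfl⟩ hxy
      rw [hinv x hx, hinv y hy]
      exact ((hh i).1.lt_iff_lt hx hy).1 hxy) (by
      rintro _ ⟨x, hx, rfl⟩
      rw [hinv x hx]
      exact hX01 x hx.2)
    exact ⟨g, fun x hx => by rw [hg _ ⟨x, hx, rfl⟩, hinv x hx]⟩
  choose g hg using hg
  choose g' hg' using hg'
  obtain ⟨γ, hγ⟩ := hτ (fun n => if n % 2 = 0 then g (n / 2) else g' (n / 2))
  have hsub : {α : ι | col α = (k, m)} ⊆ Iio γ := by
    intro α hα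
    have hαX : r α ∈ X := ⟨α, hα, rfl⟩
    obtain ⟨i, hi⟩ := mem_iUnion.1 (hA hαX)
    obtain ⟨β, hβ, hb⟩ := key i (r α) ⟨hi, hαX⟩
    have hne : β ≠ α := by
      rintro rfl; exact hβ hα
    by_contra hlt
    have hle : γ ≤ α := not_lt.1 hlt
    rcases lt_or_gt_of_ne hne with h1 | h1
    · apply (hr α).2.2 β h1 γ hle (2 * i + 1)
      rw [hγ]
      have h2 : (2 * i + 1) % 2 ≠ 0 := by omega
      have h3 : (2 * i + 1) / 2 = i := by omega
      simp only [h2, if_false, h3]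
      rw [hb, hg' i (r α) ⟨hi, hαX⟩]
    · apply (hr β).2.2 α h1 γ (hle.trans h1.le) (2 * i)
      rw [hγ]
      have h2 : (2 * i) % 2 = 0 := by omega
      have h3 : (2 * i) / 2 = i := by omega
      simp only [h2, if_true, h3]
      rw [hb, hg i (r α) ⟨hi, hαX⟩]
  have h1 : #{α : ι | col α = (k, m)} ≤ #(Iio γ) := mk_le_mk_of_subset hsub
  rw [hcol] at h1
  exact absurd (lt_of_le_of_lt h1 (mk_Iio γ)) (lt_irrefl _)

end Pool.Agent.W308.BR
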